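import Pool.Agent.Helper89.HY.St3

/-!
# HY3 (MP_e188f1_nt), module CHB: the chessboard estimate
-/

set_option autoImplicit false

noncomputable section

namespace Pool.Agent.Helper51.HY

open Finset
open Pool.Agent.Helper89.HY

open Classical in
private lemma cnt_eq {A B G : Type} (a : Finset A) (b : Finset B) (f : A → G) (h : B → G)
    (X : Finset G) (hX : ∀ p ∈ a, f p ∈ X) :
    ((a ×ˢ b).filter fun q : A × B => f q.1 = h q.2).card =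
      ∑ x ∈ X, (∑ p ∈ a, if f p = x then 1 else 0) * (∑ q ∈ b, if h q = x then 1 else 0) := by
  rw [card_filter, sum_product]
  have h1 : ∀ p ∈ a, ∀ q ∈ b, (if f p = h q then 1 else 0 : ℕ) =
      ∑ x ∈ X, (if f p = x then 1 else 0) * (if h q = x then 1 else 0) := by
    intro p hp q _
    rw [sum_eq_single (f p)]
    · rw [if_pos rfl, one_mul]
      by_cases hpq : f p = h q
      · rw [if_pos hpq, if_pos hpq.symm]
      · rw [if_neg hpq, if_neg (fun h' => hpq h'.symm)]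
    · intro x _ hx
      rw [if_neg (fun h' => hx h'.symm), zero_mul]
    · intro h'
      exact absurd (hX p hp) h'
  rw [sum_congr rfl fun p hp => sum_congr rfl fun q hq => h1 p hp q hq]
  rw [sum_congr rfl fun p _ => sum_comm, sum_comm]
  refine sum_congr rfl fun x _ => ?_
  rw [sum_mul_sum]

open Classical in
private lemma cs_count {A B G : Type} (a : Finset A) (b : Finset B) (f : A → G) (h : B → G) :
    ((a ×ˢ b).filter fun q : A × B => f q.1 = h q.2).card ^ 2 ≤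
      ((a ×ˢ a).filter fun q : A × A => f q.1 = f q.2).card *
        ((b ×ˢ b).filter fun q : B × B => h q.1 = h q.2).card := by
  set X : Finset G := a.image f ∪ b.image h with hX
  have hf : ∀ p ∈ a, f p ∈ X := fun p hp =>
    mem_union_left _ (mem_image_of_mem f hp)
  have hh : ∀ p ∈ b, h p ∈ X := fun p hp =>
    mem_union_right _ (mem_image_of_mem h hp)
  rw [cnt_eq a b f h X hf, cnt_eq a a f f X hf, cnt_eq b b h h X hh]
  refine (sum_mul_sq_le_sq_mul_sq X _ _).trans (le_of_eq ?_)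
  simp only [sq]

section

variable {G ι : Type} [Group G] (s : Finset ι) (z : ι → G)

open Classical in
private lemma FF_eq (g : Fin 6 → G) :
    FF s z g = (((s ×ˢ s ×ˢ s) ×ˢ (s ×ˢ s ×ˢ s)).filter fun q : (ι × ι × ι) × (ι × ι × ι) =>
      (z q.1.1)⁻¹ * g 0 * z q.1.2.1 * g 1 * (z q.1.2.2)⁻¹ * g 2 * z q.2.1 * g 3 * (z q.2.2.1)⁻¹ *
        g 4 * z q.2.2.2 * g 5 = 1).card := by
  unfold FF
  refine card_bij' (fun i _ => ((i 0, i 1, i 2), (i 3, i 4, i 5)))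
    (fun q _ => ![q.1.1, q.1.2.1, q.1.2.2, q.2.1, q.2.2.1, q.2.2.2]) ?_ ?_ ?_ ?_
  · intro i hi
    rw [mem_filter, Fintype.mem_piFinset] at hi
    rw [mem_filter]
    refine ⟨?_, hi.2⟩
    simp only [mem_product]
    exact ⟨⟨hi.1 0, hi.1 1, hi.1 2⟩, hi.1 3, hi.1 4, hi.1 5⟩
  · intro q hq
    rw [mem_filter] at hq
    simp only [mem_product] at hq
    rw [mem_filter, Fintype.mem_piFinset]
    refine ⟨?_, hq.2⟩
    intro j
    fin_cases j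
    · exact hq.1.1.1
    · exact hq.1.1.2.1
    · exact hq.1.1.2.2
    · exact hq.1.2.1
    · exact hq.1.2.2.1
    · exact hq.1.2.2.2
  · intro i _
    funext j
    fin_cases j <;> rfl
  · intro q _
    rfl

private lemma shift (g : Fin 6 → G) : FF s z g = FF s z ![g 2, g 3, g 4, g 5, g 0, g 1] := by
  classical
  rw [FF_eq, FF_eq]
  have key : ∀ x0 x1 x2 x3 x4 x5 : G, x0⁻¹ * g 0 * x1 * g 1 * x2⁻¹ * g 2 * x3 * g 3 * x4⁻¹ * g 4 *
      x5 * g 5 = 1 ↔ x2⁻¹ * g 2 * x3 * g 3 * x4⁻¹ * g 4 * x5 * g 5 * x0⁻¹ * g 0 * x1 * g 1 = 1 := by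
    intro x0 x1 x2 x3 x4 x5
    have e1 : x0⁻¹ * g 0 * x1 * g 1 * x2⁻¹ * g 2 * x3 * g 3 * x4⁻¹ * g 4 * x5 * g 5 =
        (x0⁻¹ * g 0 * x1 * g 1) * (x2⁻¹ * g 2 * x3 * g 3 * x4⁻¹ * g 4 * x5 * g 5) := by
      simp only [mul_assoc]
    have e2 : x2⁻¹ * g 2 * x3 * g 3 * x4⁻¹ * g 4 * x5 * g 5 * x0⁻¹ * g 0 * x1 * g 1 =
        (x2⁻¹ * g 2 * x3 * g 3 * x4⁻¹ * g 4 * x5 * g 5) * (x0⁻¹ * g 0 * x1 * g 1) := by
      simp only [mul_assoc]
    rw [e1, e2]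
    exact mul_eq_one_iff_eq_inv.trans (mul_eq_one_iff_inv_eq.trans eq_comm).symm
  refine card_bij' (fun q _ => ((q.1.2.2, q.2.1, q.2.2.1), (q.2.2.2, q.1.1, q.1.2.1)))
    (fun q _ => ((q.2.2.1, q.2.2.2, q.1.1), (q.1.2.1, q.1.2.2, q.2.1))) ?_ ?_ ?_ ?_
  · intro q hq
    rw [mem_filter] at hq ⊢
    simp only [mem_product] at hq ⊢
    refine ⟨⟨⟨hq.1.1.2.2, hq.1.2.1, hq.1.2.2.1⟩, hq.1.2.2.2, hq.1.1.1, hq.1.1.2.1⟩, ?_⟩
    exact (key _ _ _ _ _ _).1 hq.2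
  · intro q hq
    rw [mem_filter] at hq ⊢
    simp only [mem_product] at hq ⊢
    refine ⟨⟨⟨hq.1.2.2.1, hq.1.2.2.2, hq.1.1.1⟩, hq.1.1.2.1, hq.1.1.2.2, hq.1.2.1⟩, ?_⟩
    exact (key _ _ _ _ _ _).2 hq.2
  · intro q _
    rfl
  · intro q _
    rfl

private lemma main (g : Fin 6 → G) :
    FF s z g ^ 2 ≤ FF s z ![g 0, g 1, 1, (g 1)⁻¹, (g 0)⁻¹, 1] *
      FF s z ![1, g 3, g 4, 1, (g 4)⁻¹, (g 3)⁻¹] := by
  classical
  set u : ι × ι × ι → G := fun t => (z t.1)⁻¹ * g 0 * z t.2.1 * g 1 * (z t.2.2)⁻¹ with hu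
  set v : ι × ι × ι → G := fun t => z t.1 * g 3 * (z t.2.1)⁻¹ * g 4 * z t.2.2 with hv
  set h : ι × ι × ι → G := fun t => (g 5)⁻¹ * (v t)⁻¹ * (g 2)⁻¹ with hh
  have e1 : FF s z g = (((s ×ˢ s ×ˢ s) ×ˢ (s ×ˢ s ×ˢ s)).filter
      fun q : (ι × ι × ι) × (ι × ι × ι) => u q.1 = h q.2).card := by
    rw [FF_eq]
    congr 1
    apply filter_congr
    intro q _
    have e : (z q.1.1)⁻¹ * g 0 * z q.1.2.1 * g 1 * (z q.1.2.2)⁻¹ * g 2 * z q.2.1 * g 3 *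
        (z q.2.2.1)⁻¹ * g 4 * z q.2.2.2 * g 5 = u q.1 * (g 2 * v q.2 * g 5) := by
      simp only [hu, hv, mul_assoc]
    have e' : (g 2 * v q.2 * g 5)⁻¹ = h q.2 := by
      simp only [hh, mul_inv_rev, mul_assoc]
    rw [e, mul_eq_one_iff_eq_inv, e']
  have e2 : (((s ×ˢ s ×ˢ s) ×ˢ (s ×ˢ s ×ˢ s)).filter
      fun q : (ι × ι × ι) × (ι × ι × ι) => u q.1 = u q.2).card =
      FF s z ![g 0, g 1, 1, (g 1)⁻¹, (g 0)⁻¹, 1] := by
    rw [FF_eq]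
    have key : ∀ q : (ι × ι × ι) × (ι × ι × ι), u q.1 = u q.2 ↔
        (z q.1.1)⁻¹ * g 0 * z q.1.2.1 * g 1 * (z q.1.2.2)⁻¹ * 1 * z q.2.2.2 * (g 1)⁻¹ *
        (z q.2.2.1)⁻¹ * (g 0)⁻¹ * z q.2.1 * 1 = 1 := by
      intro q
      have e : (z q.1.1)⁻¹ * g 0 * z q.1.2.1 * g 1 * (z q.1.2.2)⁻¹ * 1 * z q.2.2.2 * (g 1)⁻¹ *
        (z q.2.2.1)⁻¹ * (g 0)⁻¹ * z q.2.1 * 1 = u q.1 * (u q.2)⁻¹ := by
        simp only [hu, mul_inv_rev, inv_inv, mul_one, mul_assoc]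
      rw [e, mul_inv_eq_one]
    refine card_bij' (fun q _ => (q.1, (q.2.2.2, q.2.2.1, q.2.1)))
      (fun q _ => (q.1, (q.2.2.2, q.2.2.1, q.2.1))) ?_ ?_ ?_ ?_
    · intro q hq
      rw [mem_filter] at hq ⊢
      simp only [mem_product] at hq ⊢
      refine ⟨⟨hq.1.1, hq.1.2.2.2, hq.1.2.2.1, hq.1.2.1⟩, ?_⟩
      exact (key q).1 hq.2
    · intro q hq
      rw [mem_filter] at hq ⊢
      simp only [mem_product] at hq ⊢
      refine ⟨⟨hq.1.1, hq.1.2.2.2, hq.1.2.2.1, hq.1.2.1⟩, ?_⟩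
      exact (key (q.1, (q.2.2.2, q.2.2.1, q.2.1))).2 hq.2
    · intro q _
      rfl
    · intro q _
      rfl
  have e3 : (((s ×ˢ s ×ˢ s) ×ˢ (s ×ˢ s ×ˢ s)).filter
      fun q : (ι × ι × ι) × (ι × ι × ι) => h q.1 = h q.2).card =
      FF s z ![1, g 3, g 4, 1, (g 4)⁻¹, (g 3)⁻¹] := by
    rw [FF_eq]
    have key : ∀ q : (ι × ι × ι) × (ι × ι × ι), h q.1 = h q.2 ↔
        (z q.2.1)⁻¹ * 1 * z q.1.1 * g 3 * (z q.1.2.1)⁻¹ * g 4 * z q.1.2.2 * 1 *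
        (z q.2.2.2)⁻¹ * (g 4)⁻¹ * z q.2.2.1 * (g 3)⁻¹ = 1 := by
      intro q
      have e : (z q.2.1)⁻¹ * 1 * z q.1.1 * g 3 * (z q.1.2.1)⁻¹ * g 4 * z q.1.2.2 * 1 *
        (z q.2.2.2)⁻¹ * (g 4)⁻¹ * z q.2.2.1 * (g 3)⁻¹ = (z q.2.1)⁻¹ * (v q.1 * (v q.2)⁻¹) *
          z q.2.1 := by
        simp only [hv, mul_inv_rev, inv_inv, mul_one, mul_assoc, inv_mul_cancel]
      rw [e]
      have e' : h q.1 = h q.2 ↔ v q.1 = v q.2 := by
        simp only [hh]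
        constructor
        · intro h'
          exact inv_injective (mul_left_cancel (mul_right_cancel h'))
        · intro h'
          rw [h']
      rw [e']
      constructor
      · intro h'
        rw [h', mul_inv_cancel, mul_one, inv_mul_cancel]
      · intro h'
        have h2 : v q.1 * (v q.2)⁻¹ = 1 := by
          have h3 : v q.1 * (v q.2)⁻¹ =
              z q.2.1 * ((z q.2.1)⁻¹ * (v q.1 * (v q.2)⁻¹) * z q.2.1) * (z q.2.1)⁻¹ := by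
            group
          rw [h3, h', mul_one, mul_inv_cancel]
        exact mul_inv_eq_one.1 h2
    refine card_bij' (fun q _ => ((q.2.1, q.1.1, q.1.2.1), (q.1.2.2, q.2.2.2, q.2.2.1)))
      (fun q _ => ((q.1.2.1, q.1.2.2, q.2.1), (q.1.1, q.2.2.2, q.2.2.1))) ?_ ?_ ?_ ?_
    · intro q hq
      rw [mem_filter] at hq ⊢
      simp only [mem_product] at hq ⊢
      refine ⟨⟨⟨hq.1.2.1, hq.1.1.1, hq.1.1.2.1⟩, hq.1.1.2.2, hq.1.2.2.2, hq.1.2.2.1⟩, ?_⟩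
      exact (key q).1 hq.2
    · intro q hq
      rw [mem_filter] at hq ⊢
      simp only [mem_product] at hq ⊢
      refine ⟨⟨⟨hq.1.1.2.1, hq.1.1.2.2, hq.1.2.1⟩, hq.1.1.1, hq.1.2.2.2, hq.1.2.2.1⟩, ?_⟩
      exact (key ((q.1.2.1, q.1.2.2, q.2.1), (q.1.1, q.2.2.2, q.2.2.1))).2 hq.2
    · intro q _
      rfl
    · intro q _
      rfl
  have hcs := cs_count (s ×ˢ s ×ˢ s) (s ×ˢ s ×ˢ s) u h
  rw [← e1, e2, e3] at hcs
  exact hcs

private lemma exists_max : ∃ g : Fin 6 → G, ∀ g', FF s z g' ≤ FF s z g := by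
  classical
  have hb : ∀ g : Fin 6 → G, FF s z g ≤ ((s ×ˢ s ×ˢ s) ×ˢ (s ×ˢ s ×ˢ s)).card := by
    intro g
    rw [FF_eq]
    exact card_filter_le _ _
  have hne : (Set.range (FF s z)).Nonempty := ⟨_, fun _ => 1, rfl⟩
  have hbd : BddAbove (Set.range (FF s z)) := by
    refine ⟨((s ×ˢ s ×ˢ s) ×ˢ (s ×ˢ s ×ˢ s)).card, ?_⟩
    rintro _ ⟨g, rfl⟩
    exact hb g
  obtain ⟨g, hg⟩ := Nat.sSup_mem hne hbd
  refine ⟨g, fun g' => ?_⟩
  rw [hg]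
  exact le_csSup hbd ⟨g', rfl⟩

end

/-- CHB. -/
theorem hCHB : StCHB := by
  intro G ι _ s z g
  obtain ⟨g0, hM⟩ := exists_max s z
  set M : ℕ := FF s z g0 with hMd
  refine (hM g).trans ?_
  rcases Nat.eq_zero_or_pos M with h0 | hpos
  · rw [h0]
    exact Nat.zero_le _
  have canc : ∀ x y : ℕ, M ^ 2 ≤ x * y → y ≤ M → M ≤ x := by
    intro x y h1 h2
    have h3 : M * M ≤ x * M := by
      calc M * M = M ^ 2 := by ring
        _ ≤ x * y := h1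
        _ ≤ x * M := Nat.mul_le_mul_left x h2
    exact Nat.le_of_mul_le_mul_right h3 hpos
  -- step 1
  have s1 : M ≤ FF s z ![g0 0, g0 1, 1, (g0 1)⁻¹, (g0 0)⁻¹, 1] :=
    canc _ _ (main s z g0) (hM _)
  set a := g0 0 with ha
  set b := g0 1 with hb
  -- step 2
  have s2 : M ≤ FF s z ![a⁻¹, 1, 1, 1, a, 1] := by
    have h1 : FF s z ![a, b, 1, b⁻¹, a⁻¹, 1] = FF s z ![a⁻¹, 1, a, b, 1, b⁻¹] := by
      rw [shift, shift]
      rfl
    have h2 := main s z ![a⁻¹, 1, a, b, 1, b⁻¹]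
    have h3 : M ^ 2 ≤ FF s z ![a⁻¹, 1, a, b, 1, b⁻¹] ^ 2 := by
      rw [← h1]
      exact Nat.pow_le_pow_left s1 2
    have h4 := canc _ _ (h3.trans h2) (hM _)
    refine h4.trans (le_of_eq ?_)
    congr 1
    funext j
    fin_cases j <;> simp
  -- step 3
  have h1 : FF s z ![a⁻¹, 1, 1, 1, a, 1] = FF s z ![1, 1, a, 1, a⁻¹, 1] := by
    rw [shift]
    rfl
  have h2 := main s z ![1, 1, a, 1, a⁻¹, 1]
  have h3 : M ^ 2 ≤ FF s z ![1, 1, a, 1, a⁻¹, 1] ^ 2 := by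
    rw [← h1]
    exact Nat.pow_le_pow_left s2 2
  have h4 := canc _ _ (h3.trans h2) (hM _)
  refine h4.trans (le_of_eq ?_)
  congr 1
  funext j
  fin_cases j <;> simp

end Pool.Agent.Helper51.HY
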