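import Pool.Agent.Helper89.HY.St2

/-!
# HY2 (MP_e188f1_nt), module CRT: coprime products
-/

set_option autoImplicit false

noncomputable section

namespace Pool.Agent.Helper51.HY

open Finset Matrix
open Pool.Agent.Helper89.HY
open Pool.Agent.Helper56.SW (Tm Sm τ)

private lemma map_word {a b : ℕ} (f : ZMod a →+* ZMod b) (x : Fin 6 → ZMod a) :
    f.mapMatrix (List.ofFn fun i : Fin 6 => Tm (x i) * Sm a).prod =
      (List.ofFn fun i : Fin 6 => Tm (f (x i)) * Sm b).prod := by
  rw [map_list_prod, List.map_ofFn]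
  congr 2
  funext i
  simp only [Function.comp]
  rw [map_mul]
  congr 1
  · ext u v
    rw [RingHom.mapMatrix_apply, Matrix.map_apply]
    unfold Tm
    fin_cases u <;> fin_cases v <;> simp
  · ext u v
    rw [RingHom.mapMatrix_apply, Matrix.map_apply]
    unfold Sm
    fin_cases u <;> fin_cases v <;> simp

private lemma map_scal {a b : ℕ} (f : ZMod a →+* ZMod b) (γ : ZMod a) :
    f.mapMatrix (γ • (1 : Matrix (Fin 2) (Fin 2) (ZMod a))) =
      f γ • (1 : Matrix (Fin 2) (Fin 2) (ZMod b)) := by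
  ext u v
  rw [RingHom.mapMatrix_apply, Matrix.map_apply, Matrix.smul_apply, Matrix.smul_apply, smul_eq_mul,
    smul_eq_mul, map_mul]
  congr 1
  rw [Matrix.one_apply, Matrix.one_apply]
  split_ifs <;> simp

section

variable {n k : ℕ} [NeZero n] [NeZero k] [NeZero (n * k)]

private def f1 (φ : ZMod (n * k) ≃+* ZMod n × ZMod k) : ZMod (n * k) →+* ZMod n :=
  (RingHom.fst (ZMod n) (ZMod k)).comp φ.toRingHom

private def f2 (φ : ZMod (n * k) ≃+* ZMod n × ZMod k) : ZMod (n * k) →+* ZMod k :=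
  (RingHom.snd (ZMod n) (ZMod k)).comp φ.toRingHom

private lemma f1_apply (φ : ZMod (n * k) ≃+* ZMod n × ZMod k) (x : ZMod (n * k)) :
    f1 φ x = (φ x).1 := rfl

private lemma f2_apply (φ : ZMod (n * k) ≃+* ZMod n × ZMod k) (x : ZMod (n * k)) :
    f2 φ x = (φ x).2 := rfl

private lemma mem_V {N : ℕ} [NeZero N] (γ : ZMod N) (x : Fin 6 → ZMod N) :
    x ∈ Vn N γ ↔ (List.ofFn fun i : Fin 6 => Tm (x i) * Sm N).prod =
      γ • (1 : Matrix (Fin 2) (Fin 2) (ZMod N)) := by
  unfold Vn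
  rw [mem_filter]
  exact ⟨fun h => h.2, fun h => ⟨mem_univ _, h⟩⟩

private lemma word_iff (φ : ZMod (n * k) ≃+* ZMod n × ZMod k) (γ : ZMod (n * k))
    (x : Fin 6 → ZMod (n * k)) :
    x ∈ Vn (n * k) γ ↔ (fun i => f1 φ (x i)) ∈ Vn n (f1 φ γ) ∧
      (fun i => f2 φ (x i)) ∈ Vn k (f2 φ γ) := by
  rw [mem_V, mem_V, mem_V, ← map_word, ← map_word, ← map_scal, ← map_scal]
  constructor
  · intro h
    exact ⟨congrArg _ h, congrArg _ h⟩
  · rintro ⟨h1, h2⟩
    ext u v
    apply φ.injective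
    refine Prod.ext ?_ ?_
    · exact congrFun (congrFun h1 u) v
    · exact congrFun (congrFun h2 u) v

/-- the first component of a character -/
private def c1 (φ : ZMod (n * k) ≃+* ZMod n × ZMod k) (ψ : AddChar (ZMod (n * k)) ℂ) :
    AddChar (ZMod n) ℂ where
  toFun := fun x => ψ (φ.symm (x, 0))
  map_zero_eq_one' := by
    have : φ.symm ((0 : ZMod n), (0 : ZMod k)) = 0 := map_zero φ.symm
    rw [this, AddChar.map_zero_eq_one]
  map_add_eq_mul' := by
    intro x y
    have : φ.symm ((x + y : ZMod n), (0 : ZMod k)) = φ.symm (x, 0) + φ.symm (y, 0) := by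
      rw [← map_add]
      congr 1
      exact Prod.ext rfl (add_zero _).symm
    rw [this, AddChar.map_add_eq_mul]

/-- the second component of a character -/
private def c2 (φ : ZMod (n * k) ≃+* ZMod n × ZMod k) (ψ : AddChar (ZMod (n * k)) ℂ) :
    AddChar (ZMod k) ℂ where
  toFun := fun x => ψ (φ.symm (0, x))
  map_zero_eq_one' := by
    have : φ.symm ((0 : ZMod n), (0 : ZMod k)) = 0 := map_zero φ.symm
    rw [this, AddChar.map_zero_eq_one]
  map_add_eq_mul' := by
    intro x y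
    have : φ.symm ((0 : ZMod n), (x + y : ZMod k)) = φ.symm (0, x) + φ.symm (0, y) := by
      rw [← map_add]
      congr 1
      exact Prod.ext (add_zero _).symm rfl
    rw [this, AddChar.map_add_eq_mul]

private lemma c1_apply (φ : ZMod (n * k) ≃+* ZMod n × ZMod k) (ψ : AddChar (ZMod (n * k)) ℂ)
    (x : ZMod n) : c1 φ ψ x = ψ (φ.symm (x, 0)) := rfl

private lemma c2_apply (φ : ZMod (n * k) ≃+* ZMod n × ZMod k) (ψ : AddChar (ZMod (n * k)) ℂ)
    (x : ZMod k) : c2 φ ψ x = ψ (φ.symm (0, x)) := rfl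

private lemma c_mul (φ : ZMod (n * k) ≃+* ZMod n × ZMod k) (ψ : AddChar (ZMod (n * k)) ℂ)
    (s : ZMod (n * k)) : ψ s = c1 φ ψ (f1 φ s) * c2 φ ψ (f2 φ s) := by
  rw [c1_apply, c2_apply, ← AddChar.map_add_eq_mul, ← map_add]
  congr 1
  apply φ.injective
  rw [RingEquiv.apply_symm_apply, f1_apply, f2_apply]
  exact Prod.ext (add_zero _).symm (zero_add _).symm

private lemma c1_prim (φ : ZMod (n * k) ≃+* ZMod n × ZMod k) (ψ : AddChar (ZMod (n * k)) ℂ)
    (hψ : ψ.IsPrimitive) : (c1 φ ψ).IsPrimitive := by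
  intro a ha h
  have ha' : φ.symm (a, 0) ≠ 0 := by
    intro h0
    apply ha
    have h1 := congrArg φ h0
    rw [RingEquiv.apply_symm_apply, map_zero] at h1
    exact (Prod.ext_iff.1 h1).1
  refine hψ ha' ?_
  apply DFunLike.ext
  intro z
  have h1 := DFunLike.congr_fun h (f1 φ z)
  rw [AddChar.mulShift_apply, c1_apply] at h1
  rw [AddChar.mulShift_apply]
  have e : φ.symm (a, 0) * z = φ.symm (a * f1 φ z, 0) := by
    apply φ.injective
    rw [map_mul, RingEquiv.apply_symm_apply, RingEquiv.apply_symm_apply]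
    exact Prod.ext rfl (zero_mul _)
  rw [e, h1]
  rfl

private lemma c2_prim (φ : ZMod (n * k) ≃+* ZMod n × ZMod k) (ψ : AddChar (ZMod (n * k)) ℂ)
    (hψ : ψ.IsPrimitive) : (c2 φ ψ).IsPrimitive := by
  intro a ha h
  have ha' : φ.symm (0, a) ≠ 0 := by
    intro h0
    apply ha
    have h1 := congrArg φ h0
    rw [RingEquiv.apply_symm_apply, map_zero] at h1
    exact (Prod.ext_iff.1 h1).2
  refine hψ ha' ?_
  apply DFunLike.ext
  intro z
  have h1 := DFunLike.congr_fun h (f2 φ z)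
  rw [AddChar.mulShift_apply, c2_apply] at h1
  rw [AddChar.mulShift_apply]
  have e : φ.symm (0, a) * z = φ.symm (0, a * f2 φ z) := by
    apply φ.injective
    rw [map_mul, RingEquiv.apply_symm_apply, RingEquiv.apply_symm_apply]
    exact Prod.ext (zero_mul _) rfl
  rw [e, h1]
  rfl

private lemma An_mul (φ : ZMod (n * k) ≃+* ZMod n × ZMod k) (m : Fin 6 → ZMod (n * k)) :
    An (n * k) m = An n (fun i => f1 φ (m i)) * An k (fun i => f2 φ (m i)) := by
  classical
  unfold An
  rw [← card_product]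
  refine card_bij' (fun b _ => (f1 φ b, f2 φ b)) (fun p _ => φ.symm p) ?_ ?_ ?_ ?_
  · intro b hb
    rw [mem_filter] at hb
    rw [mem_product, mem_filter, mem_filter]
    refine ⟨⟨mem_univ _, fun i => ?_⟩, ⟨mem_univ _, fun i => ?_⟩⟩
    · rw [← map_mul, hb.2 i, map_zero]
    · rw [← map_mul, hb.2 i, map_zero]
  · intro q hq
    rw [mem_product, mem_filter, mem_filter] at hq
    rw [mem_filter]
    refine ⟨mem_univ _, fun i => ?_⟩
    apply φ.injective
    rw [map_mul, RingEquiv.apply_symm_apply, map_zero]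
    exact Prod.ext (hq.1.2 i) (hq.2.2 i)
  · intro b _
    exact φ.symm_apply_apply b
  · intro q _
    rw [f1_apply, f2_apply, RingEquiv.apply_symm_apply]

end

/-- CRT. -/
theorem hCRT : StCRT := by
  intro n k _ _ _ hnk h1 h2 ψ hψ γ hγ m
  have φ : ZMod (n * k) ≃+* ZMod n × ZMod k := ZMod.chineseRemainder hnk
  have hs : ∑ x ∈ Vn (n * k) γ, ψ (∑ i, m i * x i) =
      (∑ y ∈ Vn n (f1 φ γ), c1 φ ψ (∑ i, f1 φ (m i) * y i)) *
        ∑ z ∈ Vn k (f2 φ γ), c2 φ ψ (∑ i, f2 φ (m i) * z i) := by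
    rw [sum_mul_sum, ← sum_product']
    refine sum_bij' (fun x _ => ((fun i => f1 φ (x i)), (fun i => f2 φ (x i))))
      (fun q _ => fun i => φ.symm (q.1 i, q.2 i)) ?_ ?_ ?_ ?_ ?_
    · intro x hx
      rw [mem_product]
      exact (word_iff φ γ x).1 hx
    · intro q hq
      rw [mem_product] at hq
      rw [word_iff φ]
      have e1 : (fun i => f1 φ (φ.symm (q.1 i, q.2 i))) = q.1 := by
        funext i
        rw [f1_apply, RingEquiv.apply_symm_apply]
      have e2 : (fun i => f2 φ (φ.symm (q.1 i, q.2 i))) = q.2 := by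
        funext i
        rw [f2_apply, RingEquiv.apply_symm_apply]
      rw [e1, e2]
      exact hq
    · intro x _
      funext i
      exact φ.symm_apply_apply (x i)
    · intro q _
      refine Prod.ext ?_ ?_
      · funext i
        show f1 φ (φ.symm (q.1 i, q.2 i)) = q.1 i
        rw [f1_apply, RingEquiv.apply_symm_apply]
      · funext i
        show f2 φ (φ.symm (q.1 i, q.2 i)) = q.2 i
        rw [f2_apply, RingEquiv.apply_symm_apply]
    · intro x _
      rw [c_mul φ ψ, map_sum (f1 φ), map_sum (f2 φ)]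
      simp only [map_mul]
  have g1 : (f1 φ γ) ^ 2 = 1 := by rw [← map_pow, hγ, map_one]
  have g2 : (f2 φ γ) ^ 2 = 1 := by rw [← map_pow, hγ, map_one]
  have b1 := h1 (c1 φ ψ) (c1_prim φ ψ hψ) (f1 φ γ) g1 (fun i => f1 φ (m i))
  have b2 := h2 (c2 φ ψ) (c2_prim φ ψ hψ) (f2 φ γ) g2 (fun i => f2 φ (m i))
  have ht : τ (n * k) = τ n * τ k := by
    unfold τ
    rw [Nat.Coprime.card_divisors_mul hnk]
    push_cast
    ring
  rw [hs, norm_mul, An_mul φ m, ht]
  have t1 : 0 ≤ τ n := by unfold τ; positivity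
  have t2 : 0 ≤ τ k := by unfold τ; positivity
  calc _ ≤ (τ n ^ 5 * (n : ℝ) ^ 2 * An n (fun i => f1 φ (m i))) *
        (τ k ^ 5 * (k : ℝ) ^ 2 * An k (fun i => f2 φ (m i))) :=
        mul_le_mul b1 b2 (norm_nonneg _) (by positivity)
    _ = _ := by
        push_cast
        ring

end Pool.Agent.Helper51.HY
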